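import Pool.Agent.K7.H87.EX.Stm

set_option autoImplicit false

namespace Pool.Agent.K7.H87.EX

section basics
variable {N : Type} [Group N] [LinearOrder N]
  (hl : ∀ a b c : N, a ≤ b → c * a ≤ c * b) (hr : ∀ a b c : N, a ≤ b → a * c ≤ b * c)
include hl hr

theorem mul_le (a b c d : N) (h1 : a ≤ b) (h2 : c ≤ d) : a * c ≤ b * d :=
  (hr _ _ _ h1).trans (hl _ _ _ h2)

theorem inv_le (a b : N) (h : a ≤ b) : b⁻¹ ≤ a⁻¹ := by
  have h1 := hl _ _ b⁻¹ h
  have h2 := hr _ _ a⁻¹ h1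
  simpa using h2

theorem one_le_pow' (a : N) (h : 1 ≤ a) (k : ℕ) : 1 ≤ a ^ k := by
  induction k with
  | zero => simp
  | succ k ih => rw [pow_succ]; simpa using mul_le hl hr _ _ _ _ ih h

theorem pow_le_one_a (a : N) (h : a ≤ 1) (k : ℕ) : a ^ k ≤ 1 := by
  induction k with
  | zero => simp
  | succ k ih => rw [pow_succ]; simpa using mul_le hl hr _ _ _ _ ih h

theorem le_pow_self' (a : N) (h : 1 ≤ a) (k : ℕ) (hk : 0 < k) : a ≤ a ^ k := by
  obtain ⟨j, rfl⟩ : ∃ j, k = j + 1 := ⟨k - 1, by omega⟩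
  rw [pow_succ]
  simpa using mul_le hl hr _ _ _ _ (one_le_pow' hl hr a h j) (le_refl a)

theorem pow_le_self_a (a : N) (h : a ≤ 1) (k : ℕ) (hk : 0 < k) : a ^ k ≤ a := by
  obtain ⟨j, rfl⟩ : ∃ j, k = j + 1 := ⟨k - 1, by omega⟩
  rw [pow_succ]
  simpa using mul_le hl hr _ _ _ _ (pow_le_one_a hl hr a h j) (le_refl a)

theorem bd_one (c : N) : Bd c 1 := ⟨0, by simp, by simp⟩

theorem bd_mul (c a b : N) (ha : Bd c a) (hb : Bd c b) : Bd c (a * b) := by
  obtain ⟨k, h1, h2⟩ := ha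
  obtain ⟨l, h3, h4⟩ := hb
  refine ⟨k + l, ?_, ?_⟩
  · have := mul_le hl hr _ _ _ _ h1 h3
    rwa [← mul_inv_rev, ← pow_add, add_comm l k] at this
  · have := mul_le hl hr _ _ _ _ h2 h4
    rwa [← pow_add] at this

theorem bd_inv (c a : N) (ha : Bd c a) : Bd c a⁻¹ := by
  obtain ⟨k, h1, h2⟩ := ha
  refine ⟨k, inv_le hl hr _ _ h2, ?_⟩
  simpa using inv_le hl hr _ _ h1

theorem bd_pow (c a : N) (ha : Bd c a) (k : ℕ) : Bd c (a ^ k) := by
  induction k with
  | zero => simpa using bd_one hl hr c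
  | succ k ih => rw [pow_succ]; exact bd_mul hl hr _ _ _ ih ha

theorem bd_of_one_le (c a b : N) (hc : 1 ≤ c) (h1 : 1 ≤ a) (h2 : a ≤ b) (hb : Bd c b) :
    Bd c a := by
  obtain ⟨k, h3, h4⟩ := hb
  refine ⟨k, ?_, h2.trans h4⟩
  have := inv_le hl hr _ _ (one_le_pow' hl hr c hc k)
  simp only [inv_one] at this
  exact this.trans h1

theorem bd_of_le_one (c a b : N) (hc : 1 ≤ c) (h1 : a ≤ 1) (h2 : b ≤ a) (hb : Bd c b) :
    Bd c a := by
  obtain ⟨k, h3, h4⟩ := hb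
  exact ⟨k, h3.trans h2, h1.trans (one_le_pow' hl hr c hc k)⟩

variable (c : N) (φ : N → ℝ) (hadd : ∀ a b, Bd c a → Bd c b → φ (a * b) = φ a + φ b)
  
include hadd

theorem phi_one : φ 1 = 0 := by
  have := hadd 1 1 (bd_one hl hr c) (bd_one hl hr c)
  simp at this
  exact this

theorem phi_inv (a : N) (ha : Bd c a) : φ a⁻¹ = - φ a := by
  have := hadd a a⁻¹ ha (bd_inv hl hr c a ha)
  rw [mul_inv_cancel, phi_one hl hr c φ hadd] at this
  linarith

theorem phi_pow (a : N) (ha : Bd c a) (k : ℕ) : φ (a ^ k) = k * φ a := by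
  induction k with
  | zero => simpa using phi_one hl hr c φ hadd
  | succ k ih =>
    rw [pow_succ, hadd _ _ (bd_pow hl hr c a ha k) ha, ih]
    push_cast
    ring

end basics

theorem main (hHol : StHol) (hPhi : StPhi) (hCen : StCen) : StMain := by
  intro K _ N hN _ hl hr hcj hS x y hgen hx hy hxy
  obtain ⟨n, hn, hxn, hx1⟩ := hx
  obtain ⟨m, hm, hym, hy1⟩ := hy
  obtain ⟨l, hl0, hxyl⟩ := hxy
  set X : N := ⟨x ^ n, hxn⟩ with hX
  set Y : N := ⟨y ^ m, hym⟩ with hY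
  obtain ⟨c, hcX, hcY, hcc, hc1⟩ : ∃ c : N, X ≤ c ∧ Y ≤ c ∧ (c = X ∨ c = Y) ∧ 1 < c := by
    rcases le_total X Y with h | h
    · exact ⟨Y, h, le_refl _, Or.inr rfl, hy1⟩
    · exact ⟨X, le_refl _, h, Or.inl rfl, hx1⟩
  obtain ⟨φ, hφc, hadd, hmon⟩ := hHol N hl hr c hc1
  have hci : c⁻¹ ≤ 1 := by simpa using inv_le hl hr _ _ hc1.le
  have hBX : Bd c X := ⟨1, by simpa using hci.trans hx1.le, by simpa using hcX⟩
  have hBY : Bd c Y := ⟨1, by simpa using hci.trans hy1.le, by simpa using hcY⟩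
  have hphi := hPhi K N hN hl hr hcj c hc1 φ hφc hadd hmon
  -- invariance under everything
  have hinv2 : ∀ g : K, (∀ a, Bd c a → Bd c (cj N hN g a) ∧ φ (cj N hN g a) = φ a) ∧
      (∀ a, Bd c a → Bd c (cj N hN g⁻¹ a) ∧ φ (cj N hN g⁻¹ a) = φ a) := by
    intro g
    have hg : g ∈ Subgroup.closure {x, y} := by rw [hgen]; trivial
    induction hg using Subgroup.closure_induction with
    | mem g hg =>
      rcases hg with rfl | hg
      · refine ⟨hphi g ⟨n, hn, hxn, hBX⟩, hphi g⁻¹ ⟨n, hn, by simpa using N.inv_mem hxn, ?_⟩⟩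
        have := bd_inv hl hr c X hBX
        convert this using 1
        apply Subtype.ext
        simp [hX]
      · rw [Set.mem_singleton_iff] at hg
        subst hg
        refine ⟨hphi g ⟨m, hm, hym, hBY⟩, hphi g⁻¹ ⟨m, hm, by simpa using N.inv_mem hym, ?_⟩⟩
        have := bd_inv hl hr c Y hBY
        convert this using 1
        apply Subtype.ext
        simp [hY]
    | one =>
      constructor
      · intro a ha
        have : cj N hN 1 a = a := by apply Subtype.ext; simp [cj]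
        rw [this]; exact ⟨ha, rfl⟩
      · intro a ha
        have : cj N hN 1⁻¹ a = a := by apply Subtype.ext; simp [cj]
        rw [this]; exact ⟨ha, rfl⟩
    | mul g h _ _ ihg ihh =>
      constructor
      · intro a ha
        have : cj N hN (g * h) a = cj N hN g (cj N hN h a) := by
          apply Subtype.ext; simp [cj, mul_assoc]
        rw [this]
        obtain ⟨h1, h2⟩ := ihh.1 a ha
        obtain ⟨h3, h4⟩ := ihg.1 _ h1
        exact ⟨h3, h4.trans h2⟩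
      · intro a ha
        have : cj N hN (g * h)⁻¹ a = cj N hN h⁻¹ (cj N hN g⁻¹ a) := by
          apply Subtype.ext; simp [cj, mul_assoc]
        rw [this]
        obtain ⟨h1, h2⟩ := ihg.2 a ha
        obtain ⟨h3, h4⟩ := ihh.2 _ h1
        exact ⟨h3, h4.trans h2⟩
    | inv g _ ih =>
      refine ⟨ih.2, ?_⟩
      intro a ha
      have := ih.1 a ha
      simpa using this
  have hinv : ∀ g : K, ∀ a, Bd c a → Bd c (cj N hN g a) ∧ φ (cj N hN g a) = φ a :=
    fun g => (hinv2 g).1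
  have hcen := hCen K N hN hl hr hcj c hc1 φ hφc hadd hmon hinv
  -- the subgroup D
  let D : Subgroup K :=
    { carrier := {g | ∃ h : g ∈ N, Bd c ⟨g, h⟩ ∧ φ ⟨g, h⟩ = 0}
      one_mem' := ⟨N.one_mem, bd_one hl hr c, phi_one hl hr c φ hadd⟩
      mul_mem' := by
        rintro a b ⟨ha, ha1, ha2⟩ ⟨hb, hb1, hb2⟩
        refine ⟨N.mul_mem ha hb, bd_mul hl hr c ⟨a, ha⟩ ⟨b, hb⟩ ha1 hb1, ?_⟩
        have := hadd ⟨a, ha⟩ ⟨b, hb⟩ ha1 hb1
        rw [ha2, hb2, add_zero] at this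
        exact this
      inv_mem' := by
        rintro a ⟨ha, ha1, ha2⟩
        refine ⟨N.inv_mem ha, bd_inv hl hr c ⟨a, ha⟩ ha1, ?_⟩
        have := phi_inv hl hr c φ hadd ⟨a, ha⟩ ha1
        rw [ha2, neg_zero] at this
        exact this }
  have hDmem : ∀ g, g ∈ D ↔ ∃ h : g ∈ N, Bd c ⟨g, h⟩ ∧ φ ⟨g, h⟩ = 0 := fun g => Iff.rfl
  have hDN : D ≤ N := fun g hg => hg.1
  have hDn : D.Normal := by
    constructor
    rintro a ⟨ha, ha1, ha2⟩ g
    obtain ⟨h1, h2⟩ := hinv g ⟨a, ha⟩ ha1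
    exact ⟨hN.conj_mem a ha g, h1, h2.trans ha2⟩
  have hcomm : ∀ g : K, ∀ h ∈ N, h * g * h⁻¹ * g⁻¹ ∈ D := by
    intro g
    have hg : g ∈ Subgroup.closure {x, y} := by rw [hgen]; trivial
    induction hg using Subgroup.closure_induction with
    | mem g hg =>
      have key : (∃ n : ℕ, 0 < n ∧ ∃ h : g ^ n ∈ N, Bd c ⟨g ^ n, h⟩) := by
        rcases hg with rfl | hg
        · exact ⟨n, hn, hxn, hBX⟩
        · rw [Set.mem_singleton_iff] at hg
          subst hg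
          exact ⟨m, hm, hym, hBY⟩
      intro h hh
      obtain ⟨h1, h2⟩ := hcen g key (⟨h, hh⟩⁻¹)
      have e : ((⟨h, hh⟩ : N)⁻¹)⁻¹ * cj N hN g (⟨h, hh⟩⁻¹) =
          ⟨h * g * h⁻¹ * g⁻¹, by
            have : h * g * h⁻¹ * g⁻¹ = h * (g * h⁻¹ * g⁻¹) := by group
            rw [this]
            exact N.mul_mem hh (hN.conj_mem _ (N.inv_mem hh) g)⟩ := by
        apply Subtype.ext
        simp [cj, mul_assoc]
      rw [e] at h1 h2
      exact ⟨_, h1, h2⟩
    | one => intro h hh; simpa using D.one_mem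
    | mul g1 g2 _ _ ih1 ih2 =>
      intro h hh
      have e : h * (g1 * g2) * h⁻¹ * (g1 * g2)⁻¹ =
          (h * g1 * h⁻¹ * g1⁻¹) * (g1 * (h * g2 * h⁻¹ * g2⁻¹) * g1⁻¹) := by group
      rw [e]
      exact D.mul_mem (ih1 h hh) (hDn.conj_mem _ (ih2 h hh) g1)
    | inv g _ ih =>
      intro h hh
      have e : h * g⁻¹ * h⁻¹ * g⁻¹⁻¹ = g⁻¹ * (h * g * h⁻¹ * g⁻¹)⁻¹ * g⁻¹⁻¹ := by group
      rw [e]
      exact hDn.conj_mem _ (D.inv_mem (ih h hh)) g⁻¹
  have htf : ∀ h ∈ N, ∀ k : ℕ, 0 < k → h ^ k ∈ D → h ∈ D := by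
    rintro h hh k hk ⟨h1, h2, h3⟩
    have e : (⟨h ^ k, h1⟩ : N) = (⟨h, hh⟩ : N) ^ k := by apply Subtype.ext; simp
    rw [e] at h2 h3
    have hB : Bd c ⟨h, hh⟩ := by
      rcases le_total (1 : N) ⟨h, hh⟩ with h4 | h4
      · exact bd_of_one_le hl hr c _ _ hc1.le h4 (le_pow_self' hl hr _ h4 k hk) h2
      · exact bd_of_le_one hl hr c _ _ hc1.le h4 (pow_le_self_a hl hr _ h4 k hk) h2
    refine ⟨hh, hB, ?_⟩
    rw [phi_pow hl hr c φ hadd _ hB k] at h3
    have hk' : (k : ℝ) ≠ 0 := by positivity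
    rcases mul_eq_zero.1 h3 with h5 | h5
    · exact absurd h5 hk'
    · exact h5
  have hfin := hS D hDn hDN (fun h hh g => hcomm g h hh) htf
  -- conclusion
  have hk : 0 < n * m * l := by positivity
  have hxyk : (x * y) ^ (n * m * l) ∈ N := by
    rw [mul_comm (n * m) l, pow_mul]
    exact N.pow_mem hxyl _
  refine ⟨n * m * l, hk, hxyk, ?_⟩
  have ex : x ^ (n * m * l) = ((X ^ (m * l) : N) : K) := by
    rw [mul_assoc, pow_mul]; simp [hX]
  have ey : y ^ (n * m * l) = ((Y ^ (n * l) : N) : K) := by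
    rw [mul_comm n m, mul_assoc, pow_mul]; simp [hY]
  have hu : (x * y) ^ (n * m * l) * (x ^ (n * m * l) * y ^ (n * m * l))⁻¹ ∈ D := by
    apply hfin
    · refine N.mul_mem hxyk (N.inv_mem ?_)
      rw [ex, ey]
      exact N.mul_mem (Subtype.prop _) (Subtype.prop _)
    · have : (Abelianization.of ((x * y) ^ (n * m * l) *
          (x ^ (n * m * l) * y ^ (n * m * l))⁻¹)) = 1 := by
        simp [mul_pow]
      exact (QuotientGroup.eq_one_iff _).1 this
  obtain ⟨hu1, hu2, hu3⟩ := hu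
  have e3 : (⟨(x * y) ^ (n * m * l), hxyk⟩ : N) =
      ⟨_, hu1⟩ * (X ^ (m * l) * Y ^ (n * l)) := by
    apply Subtype.ext
    simp only [Subgroup.coe_mul]
    rw [← ex, ← ey]
    group
  by_contra hcon
  rw [not_lt] at hcon
  have hB1 := bd_pow hl hr c X hBX (m * l)
  have hB2 := bd_pow hl hr c Y hBY (n * l)
  have hB3 := bd_mul hl hr c _ _ hB1 hB2
  have hB4 := bd_mul hl hr c _ _ hu2 hB3
  have hle := hmon _ _ (by rw [e3]; exact hB4) (bd_one hl hr c) hcon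
  rw [e3, hadd _ _ hu2 hB3, hu3, hadd _ _ hB1 hB2, phi_pow hl hr c φ hadd _ hBX,
    phi_pow hl hr c φ hadd _ hBY, phi_one hl hr c φ hadd] at hle
  have hX0 : 0 ≤ φ X := by
    have := hmon _ _ (bd_one hl hr c) hBX hx1.le
    rwa [phi_one hl hr c φ hadd] at this
  have hY0 : 0 ≤ φ Y := by
    have := hmon _ _ (bd_one hl hr c) hBY hy1.le
    rwa [phi_one hl hr c φ hadd] at this
  have hml : (0 : ℝ) < ((m * l : ℕ) : ℝ) := by positivity
  have hnl : (0 : ℝ) < ((n * l : ℕ) : ℝ) := by positivity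
  have t1 : 0 ≤ ((m * l : ℕ) : ℝ) * φ X := mul_nonneg hml.le hX0
  have t2 : 0 ≤ ((n * l : ℕ) : ℝ) * φ Y := mul_nonneg hnl.le hY0
  rcases hcc with h | h
  · rw [h] at hφc
    rw [hφc] at hle
    linarith
  · rw [h] at hφc
    rw [hφc] at hle
    linarith

end Pool.Agent.K7.H87.EX
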