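import Pool.Agent.K7.H87.EX.Stm

/-! Project EX2 (MP_611b97_al): orders with finitely many convex subgroups. -/

set_option autoImplicit false

namespace Pool.Agent.K7.H87.EX

/-- convex subgroup -/
def Conv {N : Type} [Group N] [LinearOrder N] (C : Subgroup N) : Prop :=
  ∀ a b : N, 1 ≤ a → a ≤ b → b ∈ C → a ∈ C

/-- the number of convex subgroups which do not contain `a` -/
noncomputable def lev {N : Type} [Group N] [LinearOrder N] (a : N) : ℕ :=
  Set.ncard {C : Subgroup N | Conv C ∧ a ∉ C}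

/-- LEV -/
def StLev : Prop := ∀ (N : Type) [Group N] [LinearOrder N],
  (∀ a b c : N, a ≤ b → c * a ≤ c * b) → (∀ a b c : N, a ≤ b → a * c ≤ b * c) →
  {C : Subgroup N | Conv C}.Finite →
    (∀ a : N, lev a = 0 ↔ a = 1) ∧
    (∀ a b : N, lev (a * b) ≤ max (lev a) (lev b)) ∧
    (∀ a : N, lev a⁻¹ = lev a) ∧
    (∀ a b : N, lev a < lev b ↔ ∃ C : Subgroup N, Conv C ∧ a ∈ C ∧ b ∉ C) ∧
    (∃ M : ℕ, ∀ a : N, lev a ≤ M)

/-- INV: convex subgroups are invariant. -/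
def StInv : Prop := ∀ (K : Type) [Group K] (N : Subgroup K) (hN : N.Normal) [LinearOrder N],
  (∀ a b c : N, a ≤ b → c * a ≤ c * b) → (∀ a b c : N, a ≤ b → a * c ≤ b * c) →
  (∀ (g : K) (a b : N), a ≤ b → cj N hN g a ≤ cj N hN g b) →
  {C : Subgroup N | Conv C}.Finite →
  ∀ g : K, ∀ C : Subgroup N, Conv C → ∀ a ∈ C, cj N hN g a ∈ C

/-- DROP: elements of the commutator subgroup act trivially on the jumps. -/
def StDrop : Prop := ∀ (K : Type) [Group K] (N : Subgroup K) (hN : N.Normal) [LinearOrder N],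
  (∀ a b c : N, a ≤ b → c * a ≤ c * b) → (∀ a b c : N, a ≤ b → a * c ≤ b * c) →
  (∀ (g : K) (a b : N), a ≤ b → cj N hN g a ≤ cj N hN g b) →
  {C : Subgroup N | Conv C}.Finite →
  ∀ g ∈ commutator K, ∀ a : N, a ≠ 1 → lev (a⁻¹ * cj N hN g a) < lev a

/-- COM: commutators in an ordered group. -/
def StCom : Prop := ∀ (N : Type) [Group N] [LinearOrder N],
  (∀ a b c : N, a ≤ b → c * a ≤ c * b) → (∀ a b c : N, a ≤ b → a * c ≤ b * c) →
  {C : Subgroup N | Conv C}.Finite →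
  ∀ a b : N, a ≠ 1 → lev b ≤ lev a → lev (a⁻¹ * b⁻¹ * a * b) < lev a

/-- SOLV -/
def StSolv : Prop := ∀ (K : Type) [Group K] (N : Subgroup K) (hN : N.Normal) [LinearOrder N],
  (∀ a b c : N, a ≤ b → c * a ≤ c * b) → (∀ a b c : N, a ≤ b → a * c ≤ b * c) →
  (∀ (g : K) (a b : N), a ≤ b → cj N hN g a ≤ cj N hN g b) →
  {C : Subgroup N | Conv C}.Finite →
  (∀ g : K, (∀ a ∈ N, a * g = g * a) → g ∈ Subgroup.center K) → IsSolvable K

/-- FSP: finitely generated soluble periodic groups are finite. -/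
def StFsp : Prop := ∀ (Γ : Type) [Group Γ], IsSolvable Γ → Group.FG Γ →
  (∀ x : Γ, IsOfFinOrder x) → Finite Γ

end Pool.Agent.K7.H87.EX
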