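import Mathlib

/-! Project EX (MP_611b97_al): extending invariant orders over periodic quotients.
Exact statements of the jobs. -/

set_option autoImplicit false

namespace Pool.Agent.K7.H87.EX

/-- `a` lies between two powers of `c`. -/
def Bd {N : Type} [Group N] [LinearOrder N] (c a : N) : Prop :=
  ∃ k : ℕ, (c ^ k)⁻¹ ≤ a ∧ a ≤ c ^ k

/-- conjugation of `a ∈ N` by `g`. -/
def cj {K : Type} [Group K] (N : Subgroup K) (hN : N.Normal) (g : K) (a : N) : N :=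
  ⟨g * a * g⁻¹, hN.conj_mem a a.2 g⟩

/-- `P` is the set of positive elements of a `G`-invariant order on the normal subgroup `H`. -/
structure InvCone {G : Type} [Group G] (H : Subgroup G) (P : Set G) : Prop where
  sub : P ⊆ (H : Set G)
  mul : ∀ a ∈ P, ∀ b ∈ P, a * b ∈ P
  one : (1 : G) ∉ P
  tot : ∀ h ∈ H, h ≠ 1 → h ∈ P ∨ h⁻¹ ∈ P
  conj : ∀ g : G, ∀ a ∈ P, g * a * g⁻¹ ∈ P

/-- property R -/
def PropR {G : Type} [Group G] (H : Subgroup G) : Prop :=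
  ∀ h ∈ H, ∀ g : G, ∀ n : ℕ, 0 < n → h * g ^ n = g ^ n * h → h * g = g * h

/-- HOL: Hoelder's map. -/
def StHol : Prop := ∀ (N : Type) [Group N] [LinearOrder N],
  (∀ a b c : N, a ≤ b → c * a ≤ c * b) → (∀ a b c : N, a ≤ b → a * c ≤ b * c) →
  ∀ c : N, 1 < c → ∃ φ : N → ℝ, φ c = 1 ∧
    (∀ a b, Bd c a → Bd c b → φ (a * b) = φ a + φ b) ∧
    (∀ a b, Bd c a → Bd c b → a ≤ b → φ a ≤ φ b)

/-- UNI: its uniqueness up to scaling. -/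
def StUni : Prop := ∀ (N : Type) [Group N] [LinearOrder N],
  (∀ a b c : N, a ≤ b → c * a ≤ c * b) → (∀ a b c : N, a ≤ b → a * c ≤ b * c) →
  ∀ c : N, 1 < c → ∀ φ ψ : N → ℝ, φ c = 1 →
    (∀ a b, Bd c a → Bd c b → φ (a * b) = φ a + φ b) →
    (∀ a b, Bd c a → Bd c b → a ≤ b → φ a ≤ φ b) →
    (∀ a b, Bd c a → Bd c b → ψ (a * b) = ψ a + ψ b) →
    (∀ a b, Bd c a → Bd c b → a ≤ b → ψ a ≤ ψ b) →
    ∀ a, Bd c a → ψ a = ψ c * φ a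

/-- PHI: invariance of the convex hull of `c` and of `φ` under an element with a power in it. -/
def StPhi : Prop := ∀ (K : Type) [Group K] (N : Subgroup K) (hN : N.Normal) [LinearOrder N],
  (∀ a b c : N, a ≤ b → c * a ≤ c * b) → (∀ a b c : N, a ≤ b → a * c ≤ b * c) →
  (∀ (g : K) (a b : N), a ≤ b → cj N hN g a ≤ cj N hN g b) →
  ∀ c : N, 1 < c → ∀ φ : N → ℝ, φ c = 1 →
    (∀ a b, Bd c a → Bd c b → φ (a * b) = φ a + φ b) →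
    (∀ a b, Bd c a → Bd c b → a ≤ b → φ a ≤ φ b) →
    ∀ g : K, (∃ n : ℕ, 0 < n ∧ ∃ h : g ^ n ∈ N, Bd c ⟨g ^ n, h⟩) →
      ∀ a, Bd c a → Bd c (cj N hN g a) ∧ φ (cj N hN g a) = φ a

/-- CEN: centrality modulo the kernel of `φ`. -/
def StCen : Prop := ∀ (K : Type) [Group K] (N : Subgroup K) (hN : N.Normal) [LinearOrder N],
  (∀ a b c : N, a ≤ b → c * a ≤ c * b) → (∀ a b c : N, a ≤ b → a * c ≤ b * c) →
  (∀ (g : K) (a b : N), a ≤ b → cj N hN g a ≤ cj N hN g b) →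
  ∀ c : N, 1 < c → ∀ φ : N → ℝ, φ c = 1 →
    (∀ a b, Bd c a → Bd c b → φ (a * b) = φ a + φ b) →
    (∀ a b, Bd c a → Bd c b → a ≤ b → φ a ≤ φ b) →
    (∀ g : K, ∀ a, Bd c a → Bd c (cj N hN g a) ∧ φ (cj N hN g a) = φ a) →
    ∀ g : K, (∃ n : ℕ, 0 < n ∧ ∃ h : g ^ n ∈ N, Bd c ⟨g ^ n, h⟩) →
      ∀ a : N, Bd c (a⁻¹ * cj N hN g a) ∧ φ (a⁻¹ * cj N hN g a) = 0

/-- `commutator K ⊓ N` dies in every quotient of `K` in which `N` is central and torsion-free. -/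
def Sch {K : Type} [Group K] (N : Subgroup K) : Prop :=
  ∀ D : Subgroup K, D.Normal → D ≤ N → (∀ h ∈ N, ∀ g : K, h * g * h⁻¹ * g⁻¹ ∈ D) →
    (∀ h ∈ N, ∀ k : ℕ, 0 < k → h ^ k ∈ D → h ∈ D) → ∀ u ∈ N, u ∈ commutator K → u ∈ D

/-- MAIN (helper87) -/
def StMain : Prop := ∀ (K : Type) [Group K] (N : Subgroup K) (hN : N.Normal) [LinearOrder N],
  (∀ a b c : N, a ≤ b → c * a ≤ c * b) → (∀ a b c : N, a ≤ b → a * c ≤ b * c) →
  (∀ (g : K) (a b : N), a ≤ b → cj N hN g a ≤ cj N hN g b) → Sch N →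
  ∀ x y : K, Subgroup.closure {x, y} = ⊤ →
  (∃ n : ℕ, 0 < n ∧ ∃ h : x ^ n ∈ N, (1 : N) < ⟨x ^ n, h⟩) →
  (∃ n : ℕ, 0 < n ∧ ∃ h : y ^ n ∈ N, (1 : N) < ⟨y ^ n, h⟩) →
  (∃ n : ℕ, 0 < n ∧ (x * y) ^ n ∈ N) →
  ∃ n : ℕ, 0 < n ∧ ∃ h : (x * y) ^ n ∈ N, (1 : N) < ⟨(x * y) ^ n, h⟩

/-- CONE: from the cone to a linear order. -/
def StCone : Prop := ∀ (K : Type) [Group K] (N : Subgroup K) (hN : N.Normal) (P : Set K),
  InvCone N P → ∃ _ : LinearOrder N,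
    (∀ a b c : N, a ≤ b → c * a ≤ c * b) ∧ (∀ a b c : N, a ≤ b → a * c ≤ b * c) ∧
    (∀ (g : K) (a b : N), a ≤ b → cj N hN g a ≤ cj N hN g b) ∧
    (∀ a : N, 1 < a ↔ (a : K) ∈ P)

/-- RR: an invariant order gives property R. -/
def StRR : Prop := ∀ (G : Type) [Group G] (H : Subgroup G) [H.Normal] (P : Set G),
  InvCone H P → PropR H

/-- EXT: closure of the set of elements with a positive power suffices. -/
def StExt : Prop := ∀ (G : Type) [Group G] (H : Subgroup G) [H.Normal],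
  (∀ g : G, g ≠ 1 → ¬ IsOfFinOrder g) → (∀ x : G ⧸ H, IsOfFinOrder x) →
  ∀ P : Set G, InvCone H P →
    (∀ x y : G, (∃ n : ℕ, 0 < n ∧ x ^ n ∈ P) → (∃ n : ℕ, 0 < n ∧ y ^ n ∈ P) →
      ∃ n : ℕ, 0 < n ∧ (x * y) ^ n ∈ P) →
    ∃ Q : Set G, (∀ a ∈ Q, ∀ b ∈ Q, a * b ∈ Q) ∧ (1 : G) ∉ Q ∧
      (∀ g : G, g ≠ 1 → g ∈ Q ∨ g⁻¹ ∈ Q) ∧ (∀ g : G, ∀ a ∈ Q, g * a * g⁻¹ ∈ Q) ∧
      (∀ h ∈ H, (h ∈ Q ↔ h ∈ P))

/-- SCHF: finite quotients satisfy `Sch` (Schur's theorem, by the transfer). -/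
def StSchF : Prop := ∀ (K : Type) [Group K] (N : Subgroup K), N.FiniteIndex → Sch N

/-- SCHN: nilpotent groups. -/
def StSchN : Prop := ∀ (K : Type) [Group K] (N : Subgroup K), Group.IsNilpotent K →
  (∀ g : K, ∃ n : ℕ, 0 < n ∧ g ^ n ∈ N) → Sch N

/-- NILA: an element with a power in the centre of `H` is central. -/
def StNilA : Prop := ∀ (G : Type) [Group G] (H : Subgroup G) [H.Normal],
  (∀ g : G, g ≠ 1 → ¬ IsOfFinOrder g) → (∀ x : G ⧸ H, IsOfFinOrder x) →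
  (∀ x y : G ⧸ H, ∃ n : ℕ, (fun z : G ⧸ H => z⁻¹ * y⁻¹ * z * y)^[n] x = 1) → PropR H →
  ∀ g : G, ∀ n : ℕ, 0 < n → g ^ n ∈ H → (∀ h ∈ H, h * g ^ n = g ^ n * h) →
    g ∈ Subgroup.center G

/-- NILB: `G` is nilpotent (from NILA, induction on the class of `H`). -/
def StNilB : Prop := ∀ (G : Type) [Group G] (H : Subgroup G) [H.Normal],
  (∀ g : G, g ≠ 1 → ¬ IsOfFinOrder g) → (∀ x : G ⧸ H, IsOfFinOrder x) →
  (∀ x y : G ⧸ H, ∃ n : ℕ, (fun z : G ⧸ H => z⁻¹ * y⁻¹ * z * y)^[n] x = 1) → PropR H →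
  Group.IsNilpotent H → Group.IsNilpotent G

end Pool.Agent.K7.H87.EX
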