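import Pool.Agent.K7.H87.EX.Main

set_option autoImplicit false

namespace Pool.Agent.K7.H87.EX

/-- Every central extension of `Γ` with torsion-free kernel has kernel disjoint from the
commutator subgroup (equivalently, the Schur multiplier of `Γ` is a torsion group). -/
def TorsionMultiplier (Γ : Type) [Group Γ] : Prop :=
  ∀ (E : Type) [Group E] (f : E →* Γ), Function.Surjective f →
    (∀ z ∈ f.ker, ∀ e : E, z * e = e * z) → (∀ z ∈ f.ker, IsOfFinOrder z → z = 1) →
    ∀ u ∈ commutator E, f u = 1 → u = 1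

/-- `Q` is the set of positive elements of a bi-invariant order on `G` extending the order
on `H` with set of positive elements `P`. -/
def Extends {G : Type} [Group G] (H : Subgroup G) (P : Set G) : Prop :=
  ∃ Q : Set G, (∀ a ∈ Q, ∀ b ∈ Q, a * b ∈ Q) ∧ (1 : G) ∉ Q ∧
      (∀ g : G, g ≠ 1 → g ∈ Q ∨ g⁻¹ ∈ Q) ∧ (∀ g : G, ∀ a ∈ Q, g * a * g⁻¹ ∈ Q) ∧
      (∀ h ∈ H, (h ∈ Q ↔ h ∈ P))

theorem pow_mem_of_fin {G : Type} [Group G] (H : Subgroup G) [H.Normal]
    (hper : ∀ x : G ⧸ H, IsOfFinOrder x) (g : G) : ∃ n : ℕ, 0 < n ∧ g ^ n ∈ H := by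
  obtain ⟨n, hn, h⟩ := isOfFinOrder_iff_pow_eq_one.1 (hper (g : G ⧸ H))
  refine ⟨n, hn, ?_⟩
  rw [← QuotientGroup.mk_pow] at h
  exact (QuotientGroup.eq_one_iff _).1 h

/-- the map `⟨x, y⟩ → ⟨x̄, ȳ⟩` -/
theorem sch_of_torsionMultiplier (hF : StSchF) {G : Type} [Group G] (H : Subgroup G)
    [hH : H.Normal] (x y : G)
    (h : Finite (Subgroup.closure {(x : G ⧸ H), (y : G ⧸ H)}) ∨
      TorsionMultiplier (Subgroup.closure {(x : G ⧸ H), (y : G ⧸ H)})) :
    Sch (H.subgroupOf (Subgroup.closure {x, y})) := by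
  set K := Subgroup.closure {x, y} with hK
  have hmap : K.map (QuotientGroup.mk' H) = Subgroup.closure {(x : G ⧸ H), (y : G ⧸ H)} := by
    rw [hK, MonoidHom.map_closure]
    congr 1
    simp [Set.image_pair]
  let ψ : K →* Subgroup.closure {(x : G ⧸ H), (y : G ⧸ H)} :=
    ((QuotientGroup.mk' H).comp K.subtype).codRestrict _ (fun k => by
      rw [← hmap]
      exact Subgroup.mem_map_of_mem _ k.2)
  have hψs : Function.Surjective ψ := by
    rintro ⟨e, he⟩
    rw [← hmap] at he
    obtain ⟨k, hk, rfl⟩ := he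
    exact ⟨⟨k, hk⟩, rfl⟩
  have hψk : ∀ k : K, ψ k = 1 ↔ k ∈ H.subgroupOf K := by
    intro k
    rw [Subgroup.mem_subgroupOf, ← QuotientGroup.eq_one_iff]
    constructor
    · intro h1
      have := congrArg Subtype.val h1
      simpa [ψ] using this
    · intro h1
      apply Subtype.ext
      simpa [ψ] using h1
  have hker : ψ.ker = H.subgroupOf K := by
    ext k; rw [MonoidHom.mem_ker]; exact hψk k
  rcases h with h | h
  · apply hF
    rw [← hker]
    exact Subgroup.finiteIndex_ker ψ
  · intro D hDn hDN hc ht u hu hu'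
    have hDk : D ≤ ψ.ker := by rw [hker]; exact hDN
    let f : K ⧸ D →* Subgroup.closure {(x : G ⧸ H), (y : G ⧸ H)} :=
      QuotientGroup.lift D ψ (fun d hd => hDk hd)
    have hf : ∀ k : K, f (k : K ⧸ D) = ψ k := fun k => rfl
    have hone := h (K ⧸ D) f (by
        intro e
        obtain ⟨k, rfl⟩ := hψs e
        exact ⟨(k : K ⧸ D), rfl⟩)
      (by
        intro z hz e
        induction z using QuotientGroup.induction_on with
        | H z =>
        induction e using QuotientGroup.induction_on with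
        | H e =>
        rw [MonoidHom.mem_ker, hf, hψk] at hz
        have := hc z hz e
        rw [← QuotientGroup.eq_one_iff] at this
        simp only [QuotientGroup.mk_mul, QuotientGroup.mk_inv] at this
        rw [mul_inv_eq_one, mul_inv_eq_iff_eq_mul] at this
        exact this)
      (by
        intro z hz hfin
        induction z using QuotientGroup.induction_on with
        | H z =>
        rw [MonoidHom.mem_ker, hf, hψk] at hz
        obtain ⟨n, hn, h1⟩ := isOfFinOrder_iff_pow_eq_one.1 hfin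
        rw [← QuotientGroup.mk_pow] at h1
        have h2 := (QuotientGroup.eq_one_iff _).1 h1
        exact (QuotientGroup.eq_one_iff _).2 (ht z hz n hn h2))
      (u : K ⧸ D)
      (by
        have h1 : Subgroup.map (QuotientGroup.mk' D) (commutator K) ≤ commutator (K ⧸ D) := by
          rw [commutator_def, Subgroup.map_commutator, commutator_def]
          exact Subgroup.commutator_mono le_top le_top
        exact h1 (Subgroup.mem_map_of_mem _ hu'))
      (by rw [hf, hψk]; exact hu)
    exact (QuotientGroup.eq_one_iff _).1 hone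

theorem extends_of_sch (hMain : StMain) (hCone : StCone) (hExt : StExt)
    {G : Type} [Group G] (H : Subgroup G) [hH : H.Normal]
    (htf : ∀ g : G, g ≠ 1 → ¬ IsOfFinOrder g) (hper : ∀ x : G ⧸ H, IsOfFinOrder x)
    (hS : ∀ x y : G, Sch (H.subgroupOf (Subgroup.closure {x, y})))
    (P : Set G) (hP : InvCone H P) : Extends H P := by
  apply hExt G H htf hper P hP
  rintro x y ⟨n, hn, hx⟩ ⟨m, hm, hy⟩
  set K := Subgroup.closure {x, y} with hK
  have hxK : x ∈ K := Subgroup.subset_closure (by simp)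
  have hyK : y ∈ K := Subgroup.subset_closure (by simp)
  let N : Subgroup K := H.subgroupOf K
  have hN : N.Normal := inferInstance
  let PK : Set K := {k | (k : G) ∈ P}
  have hPK : InvCone N PK :=
    { sub := fun k hk => hP.sub hk
      mul := fun a ha b hb => hP.mul _ ha _ hb
      one := hP.one
      tot := by
        intro h hh h1
        exact hP.tot (h : G) hh (fun e => h1 (Subtype.ext e))
      conj := fun g a ha => hP.conj _ _ ha }
  obtain ⟨inst, hl, hr, hcj, hpos⟩ := hCone K N hN PK hPK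
  have hgen : Subgroup.closure {(⟨x, hxK⟩ : K), ⟨y, hyK⟩} = ⊤ := by
    rw [← Subgroup.closure_closure_coe_preimage (k := ({x, y} : Set G))]
    congr 1
    ext k
    constructor
    · rintro (h | h)
      · left; rw [h]
      · right; rw [Set.mem_singleton_iff] at h; rw [h]; rfl
    · rintro (h | h)
      · left; exact Subtype.ext h
      · right; exact Subtype.ext h
  have key := @hMain K _ N hN inst hl hr hcj (hS x y) ⟨x, hxK⟩ ⟨y, hyK⟩ hgen
    ⟨n, hn, hP.sub hx, (hpos _).2 hx⟩ ⟨m, hm, hP.sub hy, (hpos _).2 hy⟩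
    (by
      obtain ⟨k, hk, h⟩ := pow_mem_of_fin H hper (x * y)
      exact ⟨k, hk, h⟩)
  obtain ⟨k, hk, h, h'⟩ := key
  exact ⟨k, hk, (hpos _).1 h'⟩

theorem final (hMain : StMain) (hCone : StCone) (hExt : StExt) (hRR : StRR) (hF : StSchF)
    (hNs : StSchN) (hNB : StNilB)
    (G : Type) [Group G] (H : Subgroup G) [H.Normal]
    (htf : ∀ g : G, g ≠ 1 → ¬ IsOfFinOrder g) (hper : ∀ x : G ⧸ H, IsOfFinOrder x)
    (hyp : (∀ x y : G ⧸ H, Finite (Subgroup.closure {x, y}) ∨
        TorsionMultiplier (Subgroup.closure {x, y})) ∨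
      (Group.IsNilpotent H ∧
        ∀ x y : G ⧸ H, ∃ n : ℕ, (fun z : G ⧸ H => z⁻¹ * y⁻¹ * z * y)^[n] x = 1))
    (P : Set G) (hP : InvCone H P) : Extends H P := by
  apply extends_of_sch hMain hCone hExt H htf hper _ P hP
  intro x y
  rcases hyp with h | ⟨h1, h2⟩
  · exact sch_of_torsionMultiplier hF H x y (h _ _)
  · have hG : Group.IsNilpotent G := hNB G H htf hper h2 (hRR G H P hP) h1
    apply hNs
    · infer_instance
    · intro g
      obtain ⟨k, hk, h⟩ := pow_mem_of_fin H hper (g : G)
      exact ⟨k, hk, h⟩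

end Pool.Agent.K7.H87.EX
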