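import Pool.Agent.K7.H87.EX.Final
import Pool.Agent.K7.H87.EX.Stm2

set_option autoImplicit false

namespace Pool.Agent.K7.H87.EX

/-- `C` is a convex subgroup of `H` (for the order with set of positive elements `P`). -/
def ConvexIn {G : Type} [Group G] (H : Subgroup G) (P : Set G) (C : Subgroup G) : Prop :=
  C ≤ H ∧ ∀ a ∈ P, ∀ b ∈ C, a⁻¹ * b ∈ P → a ∈ C

theorem final2 (hMain : StMain) (hCone : StCone) (hExt : StExt) (hRR : StRR) (hF : StSchF)
    (hNA : StNilA) (hSolv : StSolv) (hFsp : StFsp)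
    (G : Type) [Group G] (H : Subgroup G) [hH : H.Normal]
    (htf : ∀ g : G, g ≠ 1 → ¬ IsOfFinOrder g) (hper : ∀ x : G ⧸ H, IsOfFinOrder x)
    (heng : ∀ x y : G ⧸ H, ∃ n : ℕ, (fun z : G ⧸ H => z⁻¹ * y⁻¹ * z * y)^[n] x = 1)
    (P : Set G) (hP : InvCone H P) (hfin : {C : Subgroup G | ConvexIn H P C}.Finite) :
    IsSolvable G ∧ Extends H P := by
  have hsol : IsSolvable G := by
    obtain ⟨inst, hl, hr, hcj, hpos⟩ := hCone G H hH P hP
    refine hSolv G H hH hl hr hcj ?_ ?_
    · have hinj : Function.Injective (fun C : Subgroup H => C.map H.subtype) :=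
        Subgroup.map_injective H.subtype_injective
      refine Set.Finite.of_finite_image (f := fun C : Subgroup H => C.map H.subtype) ?_
        hinj.injOn
      refine hfin.subset ?_
      rintro _ ⟨C, hC, rfl⟩
      refine ⟨Subgroup.map_subtype_le C, ?_⟩
      rintro a ha b ⟨b', hb', rfl⟩ hab
      refine ⟨⟨a, hP.sub ha⟩, ?_, rfl⟩
      have h1 : (1 : H) < ⟨a, hP.sub ha⟩ := (hpos _).2 ha
      have h2 : (1 : H) < (⟨a, hP.sub ha⟩ : H)⁻¹ * b' := (hpos _).2 hab
      have h3 : (⟨a, hP.sub ha⟩ : H) ≤ b' := by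
        have := hl _ _ (⟨a, hP.sub ha⟩ : H) h2.le
        simpa using this
      exact hC _ _ h1.le h3 hb'
    · intro g hg
      obtain ⟨n, hn, hgn⟩ := pow_mem_of_fin H hper g
      refine hNA G H htf hper heng (hRR G H P hP) g n hn hgn ?_
      intro h hh
      have : Commute h g := hg h hh
      exact (this.pow_right n)
  refine ⟨hsol, ?_⟩
  apply extends_of_sch hMain hCone hExt H htf hper _ P hP
  intro x y
  apply sch_of_torsionMultiplier hF H x y
  left
  have hsol' : Group.IsSolvable G := hsol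
  have hq : Group.IsSolvable (G ⧸ H) := inferInstance
  apply hFsp
  · exact (inferInstance : Group.IsSolvable (Subgroup.closure {(x : G ⧸ H), (y : G ⧸ H)}))
  · rw [Group.fg_iff_subgroup_fg, Subgroup.fg_iff]
    exact ⟨{(x : G ⧸ H), (y : G ⧸ H)}, rfl, by simp⟩
  · rintro ⟨z, hz⟩
    have := hper z
    rw [isOfFinOrder_iff_pow_eq_one] at this ⊢
    obtain ⟨n, hn, h⟩ := this
    exact ⟨n, hn, Subtype.ext h⟩

/-- isolated subgroup -/
def Isolated {N : Type} [Group N] (C : Subgroup N) : Prop :=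
  ∀ (a : N) (n : ℕ), 0 < n → a ^ n ∈ C → a ∈ C

theorem fin_of_chain {N : Type} [Group N] (S : Set (Subgroup N))
    (hch : ∀ C ∈ S, ∀ D ∈ S, C ≤ D ∨ D ≤ C)
    (h1 : ¬ ∃ f : ℕ → Subgroup N, StrictMono f ∧ ∀ n, f n ∈ S)
    (h2 : ¬ ∃ f : ℕ → Subgroup N, StrictAnti f ∧ ∀ n, f n ∈ S) : S.Finite := by
  by_contra hinf
  have hinf' : S.Infinite := hinf
  have := hinf'.to_subtype
  obtain ⟨f⟩ : Nonempty (ℕ ↪ S) := ⟨Infinite.natEmbedding S⟩
  obtain ⟨g, hg | hg⟩ := exists_increasing_or_nonincreasing_subseq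
    (fun C D : Subgroup N => C < D) (fun n => ((f n : S) : Subgroup N))
  · exact h1 ⟨fun n => (f (g n) : S), fun m n h => hg m n h, fun n => (f (g n)).2⟩
  · refine h2 ⟨fun n => (f (g n) : S), fun m n h => ?_, fun n => (f (g n)).2⟩
    have h3 := hg m n h
    have hne : ((f (g m) : S) : Subgroup N) ≠ (f (g n) : S) := by
      intro e
      have := f.injective (Subtype.ext e)
      exact absurd (g.injective this) h.ne
    rcases hch _ (f (g m)).2 _ (f (g n)).2 with h4 | h4
    · exact absurd (lt_of_le_of_ne h4 hne) h3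
    · exact lt_of_le_of_ne h4 (Ne.symm hne)

theorem final3 (hMain : StMain) (hCone : StCone) (hExt : StExt) (hRR : StRR) (hF : StSchF)
    (hNA : StNilA) (hSolv : StSolv) (hFsp : StFsp)
    (G : Type) [Group G] (H : Subgroup G) [hH : H.Normal]
    (htf : ∀ g : G, g ≠ 1 → ¬ IsOfFinOrder g) (hper : ∀ x : G ⧸ H, IsOfFinOrder x)
    (heng : ∀ x y : G ⧸ H, ∃ n : ℕ, (fun z : G ⧸ H => z⁻¹ * y⁻¹ * z * y)^[n] x = 1)
    (h1 : ¬ ∃ f : ℕ → Subgroup H, StrictMono f ∧ ∀ n, Isolated (f n))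
    (h2 : ¬ ∃ f : ℕ → Subgroup H, StrictAnti f ∧ ∀ n, Isolated (f n))
    (P : Set G) (hP : InvCone H P) :
    IsSolvable G ∧ Extends H P := by
  apply final2 hMain hCone hExt hRR hF hNA hSolv hFsp G H htf hper heng P hP
  -- convex subgroups are isolated and form a chain
  have hpow : ∀ a ∈ P, ∀ n : ℕ, 0 < n → a ^ n ∈ P := by
    intro a ha n hn
    induction n with
    | zero => omega
    | succ n ih =>
      rcases Nat.eq_zero_or_pos n with h | h
      · subst h; simpa using ha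
      · rw [pow_succ]; exact hP.mul _ (ih h) _ ha
  have hiso : ∀ C : Subgroup G, ConvexIn H P C → ∀ a ∈ H, ∀ n : ℕ, 0 < n → a ^ n ∈ C →
      a ∈ C := by
    intro C hC
    have key : ∀ a ∈ P, ∀ n : ℕ, 0 < n → a ^ n ∈ C → a ∈ C := by
      intro a ha n hn h
      rcases Nat.lt_or_ge 1 n with h3 | h3
      · apply hC.2 a ha _ h
        have : a⁻¹ * a ^ n = a ^ (n - 1) := by
          obtain ⟨k, rfl⟩ : ∃ k, n = k + 1 := ⟨n - 1, by omega⟩
          rw [pow_succ']; simp
        rw [this]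
        exact hpow a ha _ (by omega)
      · have : n = 1 := by omega
        subst this
        simpa using h
    intro a ha n hn h
    by_cases h0 : a = 1
    · rw [h0]; exact C.one_mem
    · rcases hP.tot a ha h0 with h4 | h4
      · exact key a h4 n hn h
      · have := key a⁻¹ h4 n hn (by rw [inv_pow]; exact C.inv_mem h)
        simpa using C.inv_mem this
  have hchain : ∀ C D : Subgroup G, ConvexIn H P C → ConvexIn H P D → C ≤ D ∨ D ≤ C := by
    intro C D hC hD
    by_contra hcon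
    push Not at hcon
    obtain ⟨hCD, hDC⟩ := hcon
    obtain ⟨a, haC, haD⟩ := SetLike.not_le_iff_exists.1 hCD
    obtain ⟨b, hbD, hbC⟩ := SetLike.not_le_iff_exists.1 hDC
    -- make both positive
    obtain ⟨a', ha'P, ha'C, ha'D⟩ : ∃ a' ∈ P, a' ∈ C ∧ a' ∉ D := by
      have hne : a ≠ 1 := fun e => haD (e ▸ D.one_mem)
      rcases hP.tot a (hC.1 haC) hne with h4 | h4
      · exact ⟨a, h4, haC, haD⟩
      · exact ⟨a⁻¹, h4, C.inv_mem haC, fun h => haD (by simpa using D.inv_mem h)⟩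
    obtain ⟨b', hb'P, hb'D, hb'C⟩ : ∃ b' ∈ P, b' ∈ D ∧ b' ∉ C := by
      have hne : b ≠ 1 := fun e => hbC (e ▸ C.one_mem)
      rcases hP.tot b (hD.1 hbD) hne with h4 | h4
      · exact ⟨b, h4, hbD, hbC⟩
      · exact ⟨b⁻¹, h4, D.inv_mem hbD, fun h => hbC (by simpa using C.inv_mem h)⟩
    by_cases he : a'⁻¹ * b' = 1
    · have : b' = a' := by
        have := congrArg (a' * ·) he
        simpa using this
      exact hb'C (this ▸ ha'C)
    · rcases hP.tot _ (H.mul_mem (H.inv_mem (hP.sub ha'P)) (hP.sub hb'P)) he with h4 | h4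
      · exact ha'D (hD.2 a' ha'P b' hb'D h4)
      · -- (a'⁻¹ b')⁻¹ = b'⁻¹ a'
        rw [mul_inv_rev, inv_inv] at h4
        exact hb'C (hC.2 b' hb'P a' ha'C h4)
  -- pull back to subgroups of H
  have hinj : ∀ C : Subgroup G, ConvexIn H P C → (C.subgroupOf H).map H.subtype = C := by
    intro C hC
    rw [Subgroup.subgroupOf_map_subtype]
    exact inf_eq_left.2 hC.1
  have hS : ((fun C : Subgroup G => C.subgroupOf H) '' {C : Subgroup G | ConvexIn H P C}).Finite := by
    apply fin_of_chain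
    · rintro _ ⟨C, hC, rfl⟩ _ ⟨D, hD, rfl⟩
      rcases hchain C D hC hD with h | h
      · left; exact fun x hx => h hx
      · right; exact fun x hx => h hx
    · rintro ⟨f, hf, hf'⟩
      refine h1 ⟨f, hf, fun n => ?_⟩
      obtain ⟨C, hC, hCe⟩ := hf' n
      rw [← hCe]
      intro a k hk ha
      exact hiso C hC a a.2 k hk (by simpa [Subgroup.mem_subgroupOf] using ha)
    · rintro ⟨f, hf, hf'⟩
      refine h2 ⟨f, hf, fun n => ?_⟩
      obtain ⟨C, hC, hCe⟩ := hf' n
      rw [← hCe]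
      intro a k hk ha
      exact hiso C hC a a.2 k hk (by simpa [Subgroup.mem_subgroupOf] using ha)
  refine Set.Finite.of_finite_image hS ?_
  intro C hC D hD h
  rw [← hinj C hC, ← hinj D hD]
  simp only at h
  rw [h]

end Pool.Agent.K7.H87.EX
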