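import Mathlib
import Pool.Agent.K7.H87.EX.Final
import Pool.Agent.K7.H33.EX_HOL
import Pool.Agent.K7.H20.EX_UNI
import Pool.Agent.K7.H39.EX_PHI
import Pool.Agent.K7.H66.EX_CEN
import Pool.Agent.K7.H63.EX_CONE
import Pool.Agent.K7.H12.EX_RR
import Pool.Agent.K7.H5.EX_EXT
import Pool.Agent.K7.H39.EX_SCHF
import Pool.Agent.K7.H33.EX_SCHN
import Pool.Agent.K7.H88.EX_NILA
import Pool.Agent.K7.H33.EX_NILB

/-!
# Extending invariant orders over periodic quotients with torsion Schur multipliers

Let `G` be torsion-free, `H` a normal subgroup with `G/H` periodic, with a `G`-invariant order.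
Suppose that `x, y` are positive (some powers are positive elements of `H`) but `x y` is not.
Put `K = ⟨x, y⟩`, `N = K ∩ H`, `c = max (x ^ n) (y ^ m)`. The Hölder map `φ` of the convex hull of `c`
is invariant under `K`; its kernel `D` is convex and normal in `K`, and `N / D` is central in `K / D`,
because an order-preserving automorphism of finite order is trivial. So `K / D` is a central
extension of the two-generated periodic group `K / N` by a torsion-free group. If the Schur
multiplier of `K / N` is a torsion group then `N / D` meets the commutator subgroup trivially, so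
`φ ((x y) ^ k) = φ (x ^ k) + φ (y ^ k) > 0`, a contradiction.
-/

set_option autoImplicit false

namespace Pool.Agent.K7.H87.EX.TorsionMultiplierWithdrawn

open Pool.Agent.K7.H87.EX

/-- Invariant orders extend if the two-generated subgroups of the periodic quotient `G / H` are
finite or have torsion Schur multiplier. -/
theorem result :
    ∀ (G : Type) [Group G] (H : Subgroup G) [H.Normal],
      (∀ g : G, g ≠ 1 → ¬ IsOfFinOrder g) → (∀ x : G ⧸ H, IsOfFinOrder x) →
      (∀ x y : G ⧸ H, Finite (Subgroup.closure {x, y}) ∨
        TorsionMultiplier (Subgroup.closure {x, y})) →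
      ∀ P : Set G, InvCone H P → Extends H P := by
  have hMain : StMain := main Pool.Agent.K7.H33.EXHOL.t
    (Pool.Agent.K7.H39.EXPHI.t Pool.Agent.K7.H20.EXUNI.t) Pool.Agent.K7.H66.EXCEN.t
  have hNB : StNilB := Pool.Agent.K7.H33.EXNILB.t Pool.Agent.K7.H88.EXNILA.t
  intro G _ H _ htf hper h P hP
  exact final hMain Pool.Agent.K7.H63.EXCONE.t Pool.Agent.K7.H5.EXEXT.t
    Pool.Agent.K7.H12.EXRR.t Pool.Agent.K7.H39.EXSCHF.t Pool.Agent.K7.H33.EXSCHN.t hNB
    G H htf hper (Or.inl h) P hP

end Pool.Agent.K7.H87.EX.TorsionMultiplierWithdrawn
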